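import Mathlib

namespace Pool.Agent.Results.MP_c852bb_co.LDC

variable {V : Type} [Fintype V] [DecidableEq V]

/-- Locating-dominating set. -/
def IsLD (G : SimpleGraph V) (D : Finset V) : Prop :=
  (∀ v, v ∉ D → ∃ w ∈ D, G.Adj v w) ∧
  ∀ u v, u ∉ D → v ∉ D → u ≠ v → G.neighborSet u ∩ ↑D ≠ G.neighborSet v ∩ ↑D

/-- LD-coalition. -/
def IsCoalition (G : SimpleGraph V) (X Y : Finset V) : Prop :=
  Disjoint X Y ∧ ¬ IsLD G X ∧ ¬ IsLD G Y ∧ IsLD G (X ∪ Y)

/-- LDC-partition (the parts of a `Finpartition` are nonempty, disjoint and cover `V`). -/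
def IsLDCPartition (G : SimpleGraph V) (P : Finpartition (Finset.univ : Finset V)) : Prop :=
  ∀ X ∈ P.parts, ¬ IsLD G X ∧ ∃ Y ∈ P.parts, Y ≠ X ∧ IsCoalition G X Y

theorem result (G : SimpleGraph V) (h : G.diam = 2 ∨ 3 ≤ Fintype.card V) :
    ∃ P : Finpartition (Finset.univ : Finset V), IsLDCPartition G P := by
  classical
  have h3 : 3 ≤ Fintype.card V := by
    rcases h with h | h
    · haveI := SimpleGraph.nontrivial_of_diam_ne_zero (G := G) (by omega)
      obtain ⟨u, v, huv⟩ := G.exists_dist_eq_diam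
      rw [h] at huv
      obtain ⟨p, hp⟩ := SimpleGraph.exists_walk_of_dist_ne_zero (G := G) (u := u) (v := v) (by omega)
      have hne : u ≠ v := by rintro rfl; simp at huv
      cases p with
      | nil => exact absurd rfl hne
      | @cons _ w _ ha q =>
        have hw : w ≠ v := by
          rintro rfl
          have := SimpleGraph.dist_eq_one_iff_adj.2 ha
          omega
        have := Finset.card_le_univ ({u, w, v} : Finset V)
        rwa [Finset.card_eq_three.2 ⟨u, w, v, ha.ne, hne, hw, rfl⟩] at this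
    · exact h
  have hs : ∀ v, ¬ IsLD G {v} := by
    rintro v ⟨h1, h2⟩
    have : 1 < (Finset.univ.erase v).card := by
      rw [Finset.card_erase_of_mem (Finset.mem_univ _), Finset.card_univ]; omega
    obtain ⟨a, ha, b, hb, hab⟩ := Finset.one_lt_card.1 this
    have ha' : a ∉ ({v} : Finset V) := by simpa using ha
    have hb' : b ∉ ({v} : Finset V) := by simpa using hb
    apply h2 a b ha' hb' hab
    obtain ⟨w, hw, e1⟩ := h1 a ha'
    obtain ⟨w', hw', e2⟩ := h1 b hb'
    rw [Finset.mem_singleton] at hw hw'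
    subst hw hw'
    ext x
    simp only [Finset.coe_singleton, Set.mem_inter_iff, SimpleGraph.mem_neighborSet,
      Set.mem_singleton_iff]
    constructor <;> rintro ⟨-, rfl⟩ <;> exact ⟨by assumption, rfl⟩
  obtain ⟨v0⟩ : Nonempty V := Fintype.card_pos_iff.1 (by omega)
  obtain ⟨X, hX, hmax⟩ := Finset.exists_max_image
    (Finset.univ.filter fun X : Finset V => ¬ IsLD G X) Finset.card ⟨{v0}, by simp [hs]⟩
  simp only [Finset.mem_filter, Finset.mem_univ, true_and] at hX hmax
  have hXne : X.Nonempty := by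
    have := hmax _ (hs v0)
    rw [Finset.card_singleton] at this
    exact Finset.card_pos.1 this
  have hadd : ∀ v, v ∉ X → IsLD G (X ∪ {v}) := by
    intro v hv
    by_contra hc
    have := hmax _ hc
    rw [Finset.card_union_of_disjoint (by simpa using hv), Finset.card_singleton] at this
    omega
  obtain ⟨y, hy⟩ : ∃ y, y ∉ X := by
    by_contra hc
    push Not at hc
    exact hX ⟨fun v hv => absurd (hc v) hv, fun u v hu => absurd (hc u) hu⟩
  have hneX : ∀ v, v ∉ X → ({v} : Finset V) ≠ X := by
    intro v hv e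
    exact hv (e ▸ Finset.mem_singleton_self v)
  refine ⟨Finpartition.ofExistsUnique (insert X (Xᶜ.image fun v => {v})) (fun _ _ => Finset.subset_univ _)
    ?_ ?_, ?_⟩
  · intro a _
    by_cases ha : a ∈ X
    · refine ⟨X, ⟨by simp, ha⟩, ?_⟩
      rintro T ⟨hT, haT⟩
      simp only [Finset.mem_insert, Finset.mem_image, Finset.mem_compl] at hT
      rcases hT with rfl | ⟨v, hv, rfl⟩
      · rfl
      · rw [Finset.mem_singleton] at haT; exact absurd (haT ▸ ha) hv
    · refine ⟨{a}, ⟨by simp [ha], by simp⟩, ?_⟩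
      rintro T ⟨hT, haT⟩
      simp only [Finset.mem_insert, Finset.mem_image, Finset.mem_compl] at hT
      rcases hT with rfl | ⟨v, hv, rfl⟩
      · exact absurd haT ha
      · rw [Finset.mem_singleton] at haT; rw [haT]
  · simp only [Finset.mem_insert, Finset.mem_image, Finset.mem_compl, not_or, not_exists, not_and]
    exact ⟨hXne.ne_empty.symm, fun v _ => Finset.singleton_ne_empty v⟩
  · intro T hT
    simp only [Finpartition.ofExistsUnique_parts, Finset.mem_insert, Finset.mem_image,
      Finset.mem_compl] at hT ⊢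
    rcases hT with rfl | ⟨v, hv, rfl⟩
    · exact ⟨hX, {y}, Or.inr ⟨y, hy, rfl⟩, hneX y hy, by simpa using hy, hX, hs y, hadd y hy⟩
    · exact ⟨hs v, X, Or.inl rfl, (hneX v hv).symm, by simpa using hv, hs v, hX,
        by rw [Finset.union_comm]; exact hadd v hv⟩

end Pool.Agent.Results.MP_c852bb_co.LDC
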